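import Mathlib

set_option autoImplicit false

namespace Pool.Agent.H.MP_18c163_nt

open PowerSeries Finset
open scoped Nat

def O : Subring ℚ where
  carrier := {x | Odd x.den}
  mul_mem' := fun {a b} ha hb => (Odd.mul ha hb).of_dvd_nat (Rat.mul_den_dvd a b)
  one_mem' := by simp
  add_mem' := fun {a b} ha hb => (Odd.mul ha hb).of_dvd_nat (Rat.add_den_dvd a b)
  zero_mem' := by simp
  neg_mem' := fun {a} ha => by simpa using ha

theorem inv_mem {m : ℕ} (h : Odd m) : (m : ℚ)⁻¹ ∈ O := by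
  change Odd _
  rwa [Rat.inv_natCast_den_of_pos h.pos]

theorem pow_fac (j : ℕ) : (2 : ℚ) ^ j / (j + 1)! ∈ O := by
  obtain ⟨e, m, hm, h⟩ := Nat.exists_eq_two_pow_mul_odd (Nat.factorial_ne_zero (j + 1))
  have h1 : e < j + 1 := by
    have := (le_emultiplicity_of_pow_dvd (Dvd.intro _ h.symm)).trans_lt
      (Nat.emultiplicity_two_factorial_lt (Nat.succ_ne_zero j))
    exact_mod_cast this
  obtain ⟨d, rfl⟩ := Nat.exists_eq_add_of_le (Nat.lt_succ_iff.1 h1)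
  have h2 : (m : ℚ) ≠ 0 := by exact_mod_cast hm.pos.ne'
  have : (2 : ℚ) ^ (e + d) / (e + d + 1)! = (2 ^ d : ℕ) * (m : ℚ)⁻¹ := by
    rw [h, pow_add]; push_cast; field_simp
  rw [this]
  exact O.mul_mem (natCast_mem O _) (inv_mem hm)

theorem pow_fac' : ∀ j : ℕ, (2 : ℚ) ^ j / j ! ∈ O
  | 0 => by simp [O.one_mem]
  | j + 1 => by
    rw [pow_succ', mul_div_assoc]; exact O.mul_mem (natCast_mem O 2) (pow_fac j)

structure Wt where
  w : ℕ → ℚ
  w0 : w 0 = 1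
  mul : ∀ i j, ∃ c ∈ O, w (i + j) = c * (w i * w j)

def W1 : Wt := ⟨fun _ => 1, rfl, fun _ _ => ⟨1, O.one_mem, by simp⟩⟩

def W2 : Wt := ⟨fun n => n ! / 2 ^ n, by simp, fun i j => ⟨(i + j).choose i, natCast_mem O _, by
  have := Nat.add_choose_mul_factorial_mul_factorial j i
  rw [add_comm j i] at this
  rw [← this, pow_add]; push_cast; field_simp⟩⟩

theorem mul_aux (w : Wt) {f g : ℚ⟦X⟧} {n : ℕ}
    (h : ∀ i j, i + j = n → coeff i f * w.w i * (coeff j g * w.w j) ∈ O) :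
    coeff n (f * g) * w.w n ∈ O := by
  rw [coeff_mul, sum_mul]
  refine O.sum_mem fun p hp => ?_
  have h1 := mem_antidiagonal.1 hp
  obtain ⟨c, c1, c2⟩ := w.mul p.1 p.2
  rw [← h1, c2]
  convert O.mul_mem c1 (h _ _ h1) using 1
  ring

def S (w : Wt) (n : ℕ) : Subring ℚ⟦X⟧ where
  carrier := {f | ∀ i < n, coeff i f * w.w i ∈ O}
  mul_mem' := fun ha hb i hi => mul_aux w fun a b h =>
    O.mul_mem (ha a (by omega)) (hb b (by omega))
  one_mem' := fun i _ => by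
    rw [coeff_one]; split_ifs with h
    · simp [h, w.w0, O.one_mem]
    · simp [O.zero_mem]
  add_mem' := fun ha hb i hi => by rw [map_add, add_mul]; exact O.add_mem (ha i hi) (hb i hi)
  zero_mem' := fun i _ => by simp [O.zero_mem]
  neg_mem' := fun ha i hi => by rw [map_neg, neg_mul]; exact O.neg_mem (ha i hi)

theorem mul_succ {w : Wt} {n : ℕ} {f g : ℚ⟦X⟧} (hf : f ∈ S w (n + 1)) (h0 : constantCoeff f = 0)
    (hg : g ∈ S w n) : f * g ∈ S w (n + 1) := fun i hi => mul_aux w fun a b h => by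
  rcases a with _ | a
  · simp [h0, O.zero_mem]
  · exact O.mul_mem (hf _ (by omega)) (hg _ (by omega))

theorem C_mem {w : Wt} {n : ℕ} {c : ℚ} (h : c ∈ O) : C c ∈ S w n := fun i _ => by
  rw [coeff_C]; split_ifs with hi
  · simp [hi, w.w0, h]
  · simp [O.zero_mem]

theorem X_mem (n : ℕ) : X ∈ S W1 n := fun i _ => by
  rw [coeff_X]; split_ifs <;> simp [W1, O.zero_mem, O.one_mem]

theorem X2_mem (n : ℕ) : 2 * X ∈ S W2 n := fun i _ => by
  rw [two_mul, map_add, coeff_X]; split_ifs with h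
  · subst h; norm_num [W2, O.one_mem]
  · simp [O.zero_mem]

theorem div_mem {w : Wt} {f g h : ℚ⟦X⟧} (hf : ∀ n, f ∈ S w n) (h0 : constantCoeff f = 1)
    (hh : ∀ n, h ∈ S w n) (e : g * f = h) : ∀ n, g ∈ S w n
  | 0 => fun _ hi => absurd hi (Nat.not_lt_zero _)
  | n + 1 => by
    rw [show g = h - (f - 1) * g by rw [← e]; ring]
    exact sub_mem (hh _) (mul_succ (sub_mem (hf _) (one_mem _)) (by simp [h0])
      (div_mem hf h0 hh e n))

noncomputable def θ (f : ℚ⟦X⟧) : ℚ⟦X⟧ := X * d⁄dX ℚ f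

theorem coeff_θ (f : ℚ⟦X⟧) : ∀ n, coeff n (θ f) = n * coeff n f
  | 0 => by simp [θ]
  | n + 1 => by rw [θ, coeff_succ_X_mul, coeff_derivative]; push_cast; ring

theorem θ_mul (f g : ℚ⟦X⟧) : θ (f * g) = θ f * g + f * θ g := by
  simp only [θ, Derivation.leibniz, smul_eq_mul]; ring

theorem θ_add (f g : ℚ⟦X⟧) : θ (f + g) = θ f + θ g := by simp only [θ, map_add, mul_add]

theorem θ_sub (f g : ℚ⟦X⟧) : θ (f - g) = θ f - θ g := by simp only [θ, map_sub, mul_sub]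

theorem θ_C (c : ℚ) : θ (C c) = 0 := by simp [θ]

theorem θ_X : θ X = X := by simp [θ]

theorem θ_one : θ 1 = 0 := by simp [θ]

theorem θ_nat (n : ℕ) : θ n = 0 := by rw [← map_natCast C, θ_C]

theorem e2 : (2 : ℚ⟦X⟧) = C 2 := (map_ofNat C 2).symm

theorem e4 : (4 : ℚ⟦X⟧) = C 4 := (map_ofNat C 4).symm

theorem e8 : (8 : ℚ⟦X⟧) = C 8 := (map_ofNat C 8).symm

theorem e16 : (16 : ℚ⟦X⟧) = C 16 := (map_ofNat C 16).symm

theorem θ2 : θ 2 = 0 := by rw [e2, θ_C]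

theorem θ4 : θ 4 = 0 := by rw [e4, θ_C]

theorem θ_pow (f : ℚ⟦X⟧) : ∀ k : ℕ, θ (f ^ (k + 1)) = (k + 1) * f ^ k * θ f
  | 0 => by simp
  | k + 1 => by rw [pow_succ, θ_mul, θ_pow f k]; push_cast; ring

theorem θ_mem {w : Wt} {n : ℕ} {f : ℚ⟦X⟧} (h : f ∈ S w n) : θ f ∈ S w n := fun i hi => by
  rw [coeff_θ, mul_assoc]; exact O.mul_mem (natCast_mem O _) (h i hi)

theorem θ_dvd {m : ℕ} {f : ℚ⟦X⟧} (h : X ^ m ∣ f) : X ^ m ∣ θ f :=
  X_pow_dvd_iff.2 fun i hi => by rw [coeff_θ, X_pow_dvd_iff.1 h i hi, mul_zero]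

theorem uniq {f P T : ℚ⟦X⟧} (p : ℕ → ℚ) (hP : ∀ n, coeff n P = p n * coeff n f)
    (hp : ∀ n, p (n + 1) ≠ 0) (hT : ∀ m, X ^ m ∣ f → X ^ m ∣ T) {M : ℕ} (h : X ^ M ∣ P - X * T)
    (h0 : constantCoeff f = 0) : X ^ M ∣ f := by
  have : ∀ m ≤ M, X ^ m ∣ f := by
    intro m
    induction m with
    | zero => simp
    | succ m ih =>
      intro hm
      refine X_pow_dvd_iff.2 fun i hi => ?_
      rcases Nat.lt_succ_iff_lt_or_eq.1 hi with hi | rfl
      · exact X_pow_dvd_iff.1 (ih (by omega)) i hi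
      rcases i with _ | i
      · simpa using h0
      have h1 := X_pow_dvd_iff.1 h (i + 1) (by omega)
      rw [map_sub, coeff_succ_X_mul, X_pow_dvd_iff.1 (hT _ (ih (by omega))) i (by omega), sub_zero,
        hP] at h1
      exact (mul_eq_zero.1 h1).resolve_left (hp i)
  exact this M le_rfl

theorem mem_of_approx {w : Wt} {f : ℚ⟦X⟧} (h : ∀ n, ∃ g ∈ S w n, X ^ n ∣ f - g) (n : ℕ) :
    f ∈ S w n := fun i hi => by
  obtain ⟨g, g1, g2⟩ := h n
  have := X_pow_dvd_iff.1 g2 i hi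
  rw [map_sub, sub_eq_zero] at this
  rw [this]; exact g1 i hi

theorem exp_mem {R ρ : ℚ⟦X⟧} (hρ : ∀ n, ρ ∈ S W1 n) (h0 : constantCoeff ρ = 0)
    (hR : θ R = 2 * R * θ ρ) (h1 : constantCoeff R = 1) : ∀ n, R ∈ S W1 n := by
  refine mem_of_approx fun n => ⟨∑ k ∈ range (n + 1), C ((2 : ℚ) ^ k / k !) * ρ ^ k,
    sum_mem fun k _ => mul_mem (C_mem (pow_fac' k)) (pow_mem (hρ n) k), ?_⟩
  have h2 : ∀ K, θ (∑ k ∈ range (K + 1), C ((2 : ℚ) ^ k / k !) * ρ ^ k) -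
      2 * (∑ k ∈ range (K + 1), C ((2 : ℚ) ^ k / k !) * ρ ^ k) * θ ρ =
      -2 * C ((2 : ℚ) ^ K / K !) * ρ ^ K * θ ρ := by
    intro K
    induction K with
    | zero => simp [θ_one]
    | succ K ih =>
      have : (C ((2 : ℚ) ^ (K + 1) / (K + 1)!) : ℚ⟦X⟧) * (K + 1) = 2 * C ((2 : ℚ) ^ K / K !) := by
        rw [← map_natCast C, ← map_one C, ← map_add, ← map_mul, e2, ← map_mul]
        congr 1
        rw [Nat.factorial_succ, pow_succ]; push_cast; field_simp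
      rw [sum_range_succ, θ_add, θ_mul, θ_C, θ_pow]
      linear_combination ih + ρ ^ K * θ ρ * this
  refine uniq (P := θ (R - ∑ k ∈ range (n + 1), C ((2 : ℚ) ^ k / k !) * ρ ^ k))
    (T := 2 * (R - ∑ k ∈ range (n + 1), C ((2 : ℚ) ^ k / k !) * ρ ^ k) * d⁄dX ℚ ρ)
    (fun n => n) (coeff_θ _) (fun n => by positivity)
    (fun m h => (h.mul_left _).mul_right _) ?_ (by simp [sum_range_succ', h0, h1])
  refine (pow_dvd_pow_of_dvd (X_dvd_iff.2 h0) n).trans
    ⟨2 * C ((2 : ℚ) ^ n / n !) * θ ρ, ?_⟩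
  rw [θ_sub, hR]
  have := h2 n
  simp only [θ] at this ⊢
  linear_combination -this

/-- The Gauss hypergeometric series. -/
noncomputable def hyp (a b c : ℚ) : ℚ⟦X⟧ := PowerSeries.mk fun n =>
  (ascPochhammer ℚ n).eval a * (ascPochhammer ℚ n).eval b / ((ascPochhammer ℚ n).eval c * n !)

noncomputable def F (a b c : ℚ) : ℚ⟦X⟧ := rescale 4 (hyp a b c)

theorem F_zero (a b c : ℚ) : constantCoeff (F a b c) = 1 := by
  rw [← coeff_zero_eq_constantCoeff_apply]; simp [F, hyp, coeff_rescale]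

theorem F_comm (a b c : ℚ) : F a b c = F b a c := by simp only [F, hyp, mul_comm]

theorem F_ode (a b : ℚ) {c : ℚ} (hc : 0 < c) : θ (θ (F a b c)) + C (c - 1) * θ (F a b c) =
    X * (4 * (θ (θ (F a b c)) + C (a + b) * θ (F a b c) + C (a * b) * F a b c)) := by
  ext (_ | n)
  · simp [θ]
  · have h1 := (ascPochhammer_pos n c hc).ne'
    have h2 : c + n ≠ 0 := by positivity
    rw [coeff_succ_X_mul, e4]
    simp only [map_add (coeff _), coeff_C_mul, coeff_θ, F, hyp, coeff_rescale, coeff_mk,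
      ascPochhammer_succ_eval, Nat.factorial_succ]
    push_cast
    field_simp
    ring

theorem poch_shift (a : ℚ) : ∀ n, (ascPochhammer ℚ n).eval (a + 1) * a =
    (ascPochhammer ℚ n).eval a * (a + n)
  | 0 => by simp
  | n + 1 => by
    simp only [ascPochhammer_succ_eval]; push_cast
    linear_combination (a + 1 + n) * poch_shift a n

theorem F_a (a b c : ℚ) : C a * F (a + 1) b c = θ (F a b c) + C a * F a b c := by
  ext n
  simp only [map_add, coeff_C_mul, coeff_θ, F, hyp, coeff_rescale, coeff_mk]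
  linear_combination (4 ^ n * (ascPochhammer ℚ n).eval b / ((ascPochhammer ℚ n).eval c * n !)) *
    poch_shift a n

theorem F_c (a b : ℚ) {c : ℚ} (hc : 0 < c) :
    C c * F a b c = θ (F a b (c + 1)) + C c * F a b (c + 1) := by
  ext n
  have h1 := (ascPochhammer_pos n c hc).ne'
  have h2 := (ascPochhammer_pos n (c + 1) (by linarith)).ne'
  simp only [map_add, coeff_C_mul, coeff_θ, F, hyp, coeff_rescale, coeff_mk]
  field_simp
  linear_combination (ascPochhammer ℚ n).eval a * (ascPochhammer ℚ n).eval b * poch_shift c n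

noncomputable def G (i j k : ℕ) : ℚ⟦X⟧ := F ((2 * i + 1) / 4) ((2 * j + 1) / 4) ((2 * k + 1) / 2)

theorem ric (i j k : ℕ) : ∃ y, (∀ n, y ∈ S W1 n) ∧ 2 * θ (G i j k) = X * y * G i j k := by
  have h0 : constantCoeff (G i j k) ≠ 0 := by rw [G, F_zero]; exact one_ne_zero
  have h1 := PowerSeries.mul_inv_cancel _ h0
  have hG : G i j k ≠ 0 := left_ne_zero_of_mul_eq_one h1
  obtain ⟨y, hy⟩ : ∃ y, 2 * θ (G i j k) = X * y * G i j k :=
    ⟨2 * d⁄dX ℚ (G i j k) * (G i j k)⁻¹, by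
      rw [θ]; linear_combination (-2 * X * d⁄dX ℚ (G i j k)) * h1⟩
  refine ⟨y, ?_, hy⟩
  have h2 := congrArg θ hy
  simp only [θ_mul, θ2, θ_X] at h2
  have h3 := F_ode ((2 * i + 1) / 4) ((2 * j + 1) / 4) (c := (2 * k + 1) / 2) (by positivity)
  have c1 : 2 * C ((2 * k + 1) / 2 - 1 : ℚ) = (2 * k - 1 : ℚ⟦X⟧) := by
    rw [e2, ← map_natCast C, ← map_one C]; simp only [← map_mul, ← map_sub]
    congr 1; ring
  have c2 : 2 * C ((2 * i + 1) / 4 + (2 * j + 1) / 4 : ℚ) = (i + j + 1 : ℚ⟦X⟧) := by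
    rw [e2, ← map_natCast C, ← map_natCast C, ← map_one C]
    simp only [← map_mul, ← map_add]
    congr 1; ring
  have c3 : 16 * C ((2 * i + 1) / 4 * ((2 * j + 1) / 4) : ℚ) = ((2 * i + 1) * (2 * j + 1) : ℚ⟦X⟧) := by
    rw [e2, e16, ← map_natCast C, ← map_natCast C, ← map_one C]
    simp only [← map_mul, ← map_add]
    congr 1; ring
  change θ (θ (G i j k)) + _ * θ (G i j k) = X * (4 * (θ (θ (G i j k)) + _ * θ (G i j k) +
    _ * G i j k)) at h3
  have h4 : 2 * θ y + ((2 * k + 1 : ℕ) : ℚ⟦X⟧) * y = (2 * (i : ℚ⟦X⟧) + 1) * (2 * (j : ℚ⟦X⟧) + 1) +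
      X * (8 * y + 8 * θ y - y ^ 2 + 4 * X * y ^ 2 + 4 * ((i : ℚ⟦X⟧) + (j : ℚ⟦X⟧) + 1) * y) := by
    refine mul_left_cancel₀ (mul_ne_zero X_ne_zero hG) ?_
    push_cast
    linear_combination 4 * h3 - (2 - 8 * X) * h2 - (X * y * (1 - 4 * X) + (2 * k - 1) -
      4 * X * (i + j + 1)) * hy - 2 * θ (G i j k) * c1 + 8 * X * θ (G i j k) * c2 +
      X * G i j k * c3
  intro n
  induction n with
  | zero => exact fun _ hi => absurd hi (Nat.not_lt_zero _)
  | succ n ih =>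
    have h5 : 2 * θ y + ((2 * k + 1 : ℕ) : ℚ⟦X⟧) * y ∈ S W1 (n + 1) := by
      rw [h4]
      refine add_mem (by exact_mod_cast natCast_mem (S W1 (n + 1)) _)
        (mul_succ (X_mem _) (by simp) ?_)
      have := θ_mem ih
      have := X_mem n
      aesop
    intro m hm
    have h6 := O.mul_mem (inv_mem (m := 2 * (m + k) + 1) (odd_two_mul_add_one _)) (h5 m hm)
    rw [← map_natCast C, e2, map_add, coeff_C_mul, coeff_C_mul, coeff_θ] at h6
    convert h6 using 1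
    push_cast
    field_simp
    ring

def Rel (f g : ℚ⟦X⟧) : Prop := ∃ U, (∀ n, U ∈ S W1 n) ∧ constantCoeff U = 1 ∧ f = U * g

theorem Rel.refl (f : ℚ⟦X⟧) : Rel f f := ⟨1, fun _ => one_mem _, by simp, by simp⟩

theorem Rel.trans {f g h : ℚ⟦X⟧} : Rel f g → Rel g h → Rel f h
  | ⟨U, u1, u2, u3⟩, ⟨V, v1, v2, v3⟩ =>
    ⟨U * V, fun n => mul_mem (u1 n) (v1 n), by simp [u2, v2], by rw [u3, v3, mul_assoc]⟩

theorem Rel.symm {f g : ℚ⟦X⟧} : Rel f g → Rel g f
  | ⟨U, u1, u2, u3⟩ => by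
    have h := PowerSeries.inv_mul_cancel U (by rw [u2]; exact one_ne_zero)
    exact ⟨U⁻¹, div_mem u1 u2 (fun _ => one_mem _) h, by simp [u2],
      by rw [u3, ← mul_assoc, h, one_mul]⟩

theorem step {f g y : ℚ⟦X⟧} {c : ℚ} (hc : c ≠ 0) (h1 : (2 * c)⁻¹ ∈ O) (hy : ∀ n, y ∈ S W1 n)
    (h2 : 2 * θ g = X * y * g) (h3 : C c * f = θ g + C c * g) : Rel f g := by
  refine ⟨1 + C (2 * c)⁻¹ * X * y,
    fun n => add_mem (one_mem _) (mul_mem (mul_mem (C_mem h1) (X_mem _)) (hy n)), by simp, ?_⟩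
  have : (2 * C (2 * c)⁻¹ * C c : ℚ⟦X⟧) = 1 := by
    rw [e2, ← map_mul, ← map_mul, ← map_one C]; congr 1; field_simp
  linear_combination 2 * C (2 * c)⁻¹ * h3 + C (2 * c)⁻¹ * h2 - (f - g) * this

theorem step_a (i j k : ℕ) : Rel (G (i + 2) j k) (G i j k) := by
  obtain ⟨y, y1, y2⟩ := ric i j k
  refine step (c := (2 * i + 1) / 4) (by positivity) ?_ y1 y2 ?_
  · convert O.mul_mem (natCast_mem O 2) (inv_mem (odd_two_mul_add_one i)) using 1
    push_cast; field_simp; norm_num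
  · have := F_a ((2 * i + 1) / 4) ((2 * j + 1) / 4) ((2 * k + 1) / 2)
    rwa [show ((2 * i + 1) / 4 + 1 : ℚ) = (2 * (i + 2 : ℕ) + 1) / 4 by push_cast; ring] at this

theorem step_c (i j k : ℕ) : Rel (G i j (k + 1)) (G i j k) := by
  obtain ⟨y, y1, y2⟩ := ric i j (k + 1)
  refine (step (c := (2 * k + 1) / 2) (by positivity) ?_ y1 y2 ?_).symm
  · convert inv_mem (odd_two_mul_add_one k) using 1
    push_cast; field_simp
  · have := F_c ((2 * i + 1) / 4) ((2 * j + 1) / 4) (c := (2 * k + 1) / 2) (by positivity)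
    rwa [show ((2 * k + 1) / 2 + 1 : ℚ) = (2 * (k + 1 : ℕ) + 1) / 2 by push_cast; ring] at this

theorem steps (i j k a b c : ℕ) : Rel (G (i + 2 * a) (j + 2 * b) (k + c)) (G i j k) := by
  induction a with
  | succ a ih => exact (step_a _ _ _).trans ih
  | zero =>
    induction b with
    | succ b ih =>
      refine Rel.trans ?_ ih
      rw [G, G, F_comm, F_comm ((2 * ((i + 2 * 0 : ℕ) : ℚ) + 1) / 4)]
      exact step_a _ _ _
    | zero =>
      induction c with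
      | succ c ih => exact (step_c _ _ _).trans ih
      | zero => exact Rel.refl _

end Pool.Agent.H.MP_18c163_nt
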