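import Pool.Agent.H.MP_18c163_nt.A

set_option autoImplicit false

namespace Pool.Agent.H.MP_18c163_nt

open PowerSeries Finset
open scoped Nat

theorem G_ode (i j k : ℕ) : 4 * θ (θ (G i j k)) + 2 * (2 * (k : ℚ⟦X⟧) - 1) * θ (G i j k) =
    X * (16 * θ (θ (G i j k)) + 8 * ((i : ℚ⟦X⟧) + (j : ℚ⟦X⟧) + 1) * θ (G i j k) +
      (2 * (i : ℚ⟦X⟧) + 1) * (2 * (j : ℚ⟦X⟧) + 1) * G i j k) := by
  have h3 := F_ode ((2 * i + 1) / 4) ((2 * j + 1) / 4) (c := (2 * k + 1) / 2) (by positivity)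
  have c1 : 2 * C ((2 * k + 1) / 2 - 1 : ℚ) = (2 * k - 1 : ℚ⟦X⟧) := by
    rw [e2, ← map_natCast C, ← map_one C]; simp only [← map_mul, ← map_sub]
    congr 1; ring
  have c2 : 2 * C ((2 * i + 1) / 4 + (2 * j + 1) / 4 : ℚ) = (i + j + 1 : ℚ⟦X⟧) := by
    rw [e2, ← map_natCast C, ← map_natCast C, ← map_one C]
    simp only [← map_mul, ← map_add]
    congr 1; ring
  have c3 : 16 * C ((2 * i + 1) / 4 * ((2 * j + 1) / 4) : ℚ) = ((2 * i + 1) * (2 * j + 1) : ℚ⟦X⟧) := by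
    rw [e2, e16, ← map_natCast C, ← map_natCast C, ← map_one C]
    simp only [← map_mul, ← map_add]
    congr 1; ring
  change θ (θ (G i j k)) + _ * θ (G i j k) = X * (4 * (θ (θ (G i j k)) + _ * θ (G i j k) +
    _ * G i j k)) at h3
  linear_combination 4 * h3 - 2 * θ (G i j k) * c1 + 8 * X * θ (G i j k) * c2 + X * G i j k * c3

theorem θn (n : ℕ) [n.AtLeastTwo] : θ (no_index (OfNat.ofNat n)) = 0 := θ_nat _

theorem two_ne : (2 : ℚ⟦X⟧) ≠ 0 := by rw [e2]; simp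

theorem hD : 4 * θ (θ (G 0 0 0)) - 2 * θ (G 0 0 0) =
    X * (16 * θ (θ (G 0 0 0)) + 8 * θ (G 0 0 0) + G 0 0 0) := by
  have := G_ode 0 0 0; push_cast at this; linear_combination this

theorem hN : 4 * θ (θ (G 1 1 1)) + 2 * θ (G 1 1 1) =
    X * (16 * θ (θ (G 1 1 1)) + 24 * θ (G 1 1 1) + 9 * G 1 1 1) := by
  have := G_ode 1 1 1; push_cast at this; linear_combination this

theorem G0 (i j k : ℕ) : constantCoeff (G i j k) = 1 := F_zero _ _ _

theorem θ0 (f : ℚ⟦X⟧) : constantCoeff (θ f) = 0 := by simp [θ]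

theorem wron : (1 - 4 * X) * (G 0 0 0 * G 1 1 1 +
    2 * (G 0 0 0 * θ (G 1 1 1) - θ (G 0 0 0) * G 1 1 1)) = 1 := by
  have h : θ ((1 - 4 * X) * (G 0 0 0 * G 1 1 1 +
      2 * (G 0 0 0 * θ (G 1 1 1) - θ (G 0 0 0) * G 1 1 1)) - 1) = 0 := by
    refine mul_left_cancel₀ two_ne ?_
    simp only [θ_sub, θ_mul, θ_add, θ_one, θn, θ_X]
    linear_combination G 0 0 0 * hN - G 1 1 1 * hD
  rw [← sub_eq_zero]
  ext (_ | n)
  · simp [G0, θ0]
  · have := congrArg (coeff (n + 1)) h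
    rw [coeff_θ] at this
    exact (mul_eq_zero.1 this).resolve_left (by positivity)

noncomputable def Lp (f : ℚ⟦X⟧) : ℚ⟦X⟧ := 4 * θ (θ (θ f)) - θ f

noncomputable def Lt (f : ℚ⟦X⟧) : ℚ⟦X⟧ := 32 * θ (θ (θ f)) + 48 * θ (θ f) + 28 * θ f + 6 * f -
  64 * X * (θ (θ (θ f)) + 3 * θ (θ f) + 3 * θ f + f)

theorem L_uniq {f : ℚ⟦X⟧} {M : ℕ} (h : X ^ M ∣ Lp f - X * Lt f) (h0 : constantCoeff f = 0) :
    X ^ M ∣ f := by
  refine uniq (fun n => 4 * n ^ 3 - n) (fun n => ?_) (fun n => ?_) (fun m h1 => ?_) h h0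
  · simp only [Lp, map_sub, e4, coeff_C_mul, coeff_θ]; ring
  · have : (0 : ℚ) ≤ n := by positivity
    have : (0 : ℚ) < 4 * ((n + 1 : ℕ) : ℚ) ^ 3 - (n + 1 : ℕ) := by
      push_cast; nlinarith [pow_nonneg this 2, pow_nonneg this 3]
    exact this.ne'
  · have h2 := θ_dvd h1
    have h3 := θ_dvd h2
    have h4 := θ_dvd h3
    exact dvd_sub (dvd_add (dvd_add (dvd_add (h4.mul_left _) (h3.mul_left _)) (h2.mul_left _))
      (h1.mul_left _)) (Dvd.dvd.mul_left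
        (dvd_add (dvd_add (dvd_add h4 (h3.mul_left _)) (h2.mul_left _)) h1) _)

theorem L_M : Lp (G 1 1 1 * G 0 0 0) - X * Lt (G 1 1 1 * G 0 0 0) = 0 := by
  have a := congrArg θ hD
  have b := congrArg θ hN
  refine mul_left_cancel₀ two_ne ?_
  simp only [Lp, Lt, θ_sub, θ_mul, θ_add, θn, θ_X] at a b ⊢
  linear_combination 2 * (1 - 4 * X) * G 1 1 1 * a + 2 * (1 - 4 * X) * G 0 0 0 * b +
    ((1 - 12 * X) * G 1 1 1 + 6 * (1 - 4 * X) * θ (G 1 1 1)) * hD +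
    ((-1 - 4 * X) * G 0 0 0 + 6 * (1 - 4 * X) * θ (G 0 0 0)) * hN

theorem L_phi {v p : ℚ⟦X⟧} (k : ℕ) (hv : v * (1 - 4 * X) = 1)
    (a1 : 2 * θ p = (v - 1 + 2 * (k : ℚ⟦X⟧) * (1 + v)) * p) : 2 * (Lp p - X * Lt p) =
    (1 - 2 * X) * (4 * (k : ℚ⟦X⟧) * (16 * (k : ℚ⟦X⟧) ^ 2 - 1) * p +
      32 * (2 * (k : ℚ⟦X⟧) + 1) ^ 3 * (X ^ 2 * v * p)) := by
  have h1 : θ v = (v - 1) * v := by
    have := congrArg θ hv
    simp only [θ_sub, θ_mul, θ_one, θn, θ_X] at this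
    linear_combination v * this - (θ v + v) * hv
  have a2 := congrArg θ a1
  simp only [θ_sub, θ_mul, θ_add, θ_one, θn, θ_nat, h1] at a2
  replace a2 : 4 * θ (θ p) = ((v - 1 + 2 * (k : ℚ⟦X⟧) * (1 + v)) *
      (v - 1 + 2 * (k : ℚ⟦X⟧) * (1 + v)) + 2 * ((2 * (k : ℚ⟦X⟧) + 1) * (v - 1) * v)) * p := by
    linear_combination 2 * a2 + (v - 1 + 2 * k * (1 + v)) * a1
  have a3 := congrArg θ a2
  simp only [θ_sub, θ_mul, θ_add, θ_one, θn, θ_nat, h1] at a3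
  replace a3 : 8 * θ (θ (θ p)) = ((v - 1 + 2 * (k : ℚ⟦X⟧) * (1 + v)) ^ 3 +
      6 * (v - 1 + 2 * (k : ℚ⟦X⟧) * (1 + v)) * ((2 * (k : ℚ⟦X⟧) + 1) * (v - 1) * v) +
      4 * ((2 * (k : ℚ⟦X⟧) + 1) * (2 * v - 1) * (v - 1) * v)) * p := by
    linear_combination 2 * a3 + ((v - 1 + 2 * k * (1 + v)) * (v - 1 + 2 * k * (1 + v)) +
      2 * ((2 * k + 1) * (v - 1) * v)) * a1
  refine mul_left_cancel₀ (mul_ne_zero two_ne two_ne) ?_
  simp only [Lp, Lt]
  linear_combination (4 - 32 * X + 64 * X ^ 2) * a3 + (-96 * X + 384 * X ^ 2) * a2 +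
    (-4 - 112 * X + 768 * X ^ 2) * a1 + ((-64)*X^2 + (-384)*X^2*k + (-768)*X^2*k^2 +
    (-512)*X^2*k^3 + 64*X*k + (-256)*X*k^3 + (-384)*X*k^3*v + (-128)*X*k^3*v^2 + (-576)*X*k^2*v +
    (-576)*X*k^2*v^2 + 96*X*k*v + (-736)*X*k*v^2 + 144*X*v + (-240)*X*v^2 + (-32)*k + 48*k^2 +
    224*k^3 + 128*k^3*v + 32*k^3*v^2 + 192*k^2*v + 144*k^2*v^2 + (-32)*k*v + 184*k*v^2 +
    (-48)*v + 60*v^2) * p * hv

def od : ℕ → ℚ
  | 0 => 1
  | k + 1 => od k * (-(2 * k + 1) ^ 3 * ((2 * (2 * k + 1) + 1 : ℕ) : ℚ)⁻¹ *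
      ((2 * (2 * k + 2) + 1 : ℕ) : ℚ)⁻¹)

theorem od_mem : ∀ k, od k ∈ O
  | 0 => O.one_mem
  | k + 1 => O.mul_mem (od_mem k) (O.mul_mem (O.mul_mem (O.neg_mem (O.pow_mem
      (by exact_mod_cast natCast_mem O (2 * k + 1)) 3)) (inv_mem (odd_two_mul_add_one _)))
      (inv_mem (odd_two_mul_add_one _)))

theorem mono_mem (j n : ℕ) : C (8 ^ j * od (j + 1) / (j + 1)!) * X ^ (2 * j) ∈ S W2 n := by
  intro i _
  rw [coeff_C_mul, coeff_X_pow]
  split_ifs with h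
  · subst h
    convert O.mul_mem (O.mul_mem (pow_fac j) (od_mem (j + 1))) (natCast_mem O (2 * j)!) using 1
    simp only [W2]
    rw [show (8 : ℚ) = 2 ^ 3 by norm_num, ← pow_mul]
    field_simp
    ring
  · simp [O.zero_mem]

theorem M_form {v B : ℚ⟦X⟧} (hv : v * (1 - 4 * X) = 1) (hB : 2 * θ B = (v - 1) * B)
    (B0 : constantCoeff B = 1) (v2 : ∀ n, v ∈ S W2 n) (B2 : ∀ n, B ∈ S W2 n) :
    ∃ E, (∀ n, E ∈ S W2 n) ∧ G 1 1 1 * G 0 0 0 = B + 8 * X ^ 2 * E := by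
  have h1 : θ v = (v - 1) * v := by
    have := congrArg θ hv
    simp only [θ_sub, θ_mul, θ_one, θn, θ_X] at this
    linear_combination v * this - (θ v + v) * hv
  have h2 : ∀ k : ℕ, 2 * θ (B * (X ^ 2 * v) ^ k) =
      (v - 1 + 2 * (k : ℚ⟦X⟧) * (1 + v)) * (B * (X ^ 2 * v) ^ k) := by
    intro k
    induction k with
    | zero => simpa using hB
    | succ k ih =>
      rw [pow_succ, ← mul_assoc, θ_mul, θ_mul (X ^ 2), θ_pow, θ_X, h1]
      push_cast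
      linear_combination (X ^ 2 * v) * ih
  set T : ℕ → ℚ⟦X⟧ := fun K => B + ∑ j ∈ range K,
    C (8 ^ (j + 1) * od (j + 1) / (j + 1)!) * (B * (X ^ 2 * v) ^ (j + 1)) with hT
  have h3 : ∀ K : ℕ, 2 * (Lp (T K) - X * Lt (T K)) = (1 - 2 * X) * 32 * (2 * (K : ℚ⟦X⟧) + 1) ^ 3 *
      C (8 ^ K * od K / K !) * (B * (X ^ 2 * v) ^ (K + 1)) := by
    intro K
    induction K with
    | zero =>
      have := L_phi 0 hv (h2 0)
      simp only [hT, od]
      simp at this ⊢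
      linear_combination this
    | succ K ih =>
      have a1 := L_phi (K + 1) hv (h2 (K + 1))
      have a2 : T (K + 1) = T K + C (8 ^ (K + 1) * od (K + 1) / (K + 1)!) *
          (B * (X ^ 2 * v) ^ (K + 1)) := by simp only [hT, sum_range_succ, add_assoc]
      have a3 : (C (8 ^ (K + 1) * od (K + 1) / (K + 1)! : ℚ) : ℚ⟦X⟧) *
          (4 * ((K : ℚ⟦X⟧) + 1) * (16 * ((K : ℚ⟦X⟧) + 1) ^ 2 - 1)) =
          -32 * (2 * (K : ℚ⟦X⟧) + 1) ^ 3 * C (8 ^ K * od K / K ! : ℚ) := by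
        have : (8 ^ (K + 1) * od (K + 1) / (K + 1)! : ℚ) * (4 * (K + 1) * (16 * (K + 1) ^ 2 - 1)) =
            -32 * (2 * K + 1) ^ 3 * (8 ^ K * od K / K !) := by
          rw [od, Nat.factorial_succ]; push_cast; field_simp; ring
        simpa only [map_mul, map_sub, map_add, map_pow, map_neg, map_ofNat, map_natCast, map_one]
          using congrArg (C : ℚ →+* ℚ⟦X⟧) this
      rw [a2]
      rw [show B * (X ^ 2 * v) ^ (K + 1 + 1) = X ^ 2 * v * (B * (X ^ 2 * v) ^ (K + 1)) by ring]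
      generalize B * (X ^ 2 * v) ^ (K + 1) = p at ih a1 ⊢
      simp only [Lp, Lt, θ_add, θ_mul, θ_C, zero_mul, zero_add] at ih a1 ⊢
      push_cast at a1 ⊢
      linear_combination ih + C (8 ^ (K + 1) * od (K + 1) / (K + 1)! : ℚ) * a1 +
        (1 - 2 * X) * p * a3
  have h4 : ∀ K, X ^ (2 * K + 2) ∣ G 1 1 1 * G 0 0 0 - T K := fun K => by
    refine L_uniq ⟨-(C (1 / 2 : ℚ) * (1 - 2 * X) * 32 * (2 * (K : ℚ⟦X⟧) + 1) ^ 3 *
      C (8 ^ K * od K / K ! : ℚ) * (B * v ^ (K + 1))), ?_⟩ (by simp [hT, G0, B0])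
    refine mul_left_cancel₀ two_ne ?_
    have a1 := h3 K
    have a2 := L_M
    have a3 : (2 * C (1 / 2 : ℚ) : ℚ⟦X⟧) = 1 := by rw [e2, ← map_mul]; norm_num
    simp only [Lp, Lt, θ_sub] at a1 a2 ⊢
    linear_combination 2 * a2 - a1 + X ^ (2 * K + 2) * ((1 - 2 * X) * 32 * (2 * K + 1) ^ 3 *
      C (8 ^ K * od K / K !) * (B * v ^ (K + 1))) * a3
  obtain ⟨E, hE⟩ := h4 0
  have a8 : (8 * C (1 / 8 : ℚ) : ℚ⟦X⟧) = 1 := by rw [e8, ← map_mul]; norm_num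
  simp only [hT, sum_range_zero, add_zero, mul_zero, zero_add] at hE
  refine ⟨C (1 / 8) * E, mem_of_approx fun n => ⟨∑ j ∈ range n,
    C (8 ^ j * od (j + 1) / (j + 1)!) * X ^ (2 * j) * (B * v ^ (j + 1)),
    sum_mem fun j _ => mul_mem (mono_mem j n) (mul_mem (B2 n) (pow_mem (v2 n) _)), ?_⟩,
    by linear_combination hE - X ^ 2 * E * a8⟩
  obtain ⟨E', hE'⟩ := h4 n
  refine (pow_dvd_pow X (show n ≤ 2 * n by omega)).trans ⟨C (1 / 8) * E', ?_⟩
  have a9 : T n = B + 8 * X ^ 2 * ∑ j ∈ range n,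
      C (8 ^ j * od (j + 1) / (j + 1)!) * X ^ (2 * j) * (B * v ^ (j + 1)) := by
    rw [mul_sum]
    refine congrArg (B + ·) (sum_congr rfl fun j _ => ?_)
    rw [pow_succ (8 : ℚ), mul_comm _ (8 : ℚ), mul_assoc, mul_div_assoc, map_mul, ← e8]
    ring
  refine mul_left_cancel₀ (pow_ne_zero 2 X_ne_zero) ?_
  linear_combination C (1 / 8) * hE' - C (1 / 8) * hE + C (1 / 8) * a9 + X ^ 2 * (∑ j ∈ range n,
      C (8 ^ j * od (j + 1) / (j + 1)!) * X ^ (2 * j) * (B * v ^ (j + 1))) * a8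

theorem base : Rel (G 1 1 1) (G 0 0 0) := by
  set c : ℚ⟦X⟧ := PowerSeries.mk fun n => (catalan n : ℚ) with hc
  have c0 : constantCoeff c = 1 := by simp [hc, ← coeff_zero_eq_constantCoeff_apply]
  have c1 : ∀ n, c ∈ S W1 n := fun n i _ => by simp [hc, W1]
  have c2 : c = 1 + X * (c * c) := by
    ext (_ | n)
    · simp [c0]
    · rw [map_add, coeff_succ_X_mul, coeff_mul]
      simp [hc, catalan_succ', coeff_one]
  have c3 := congrArg θ c2
  simp only [θ_add, θ_mul, θ_one, θ_X] at c3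
  obtain ⟨B, hB⟩ : ∃ B, B * (1 - 2 * X * c) = 1 := ⟨_, PowerSeries.inv_mul_cancel _ (by simp)⟩
  obtain ⟨v, hv⟩ : ∃ v : ℚ⟦X⟧, v * (1 - 4 * X) = 1 := ⟨_, PowerSeries.inv_mul_cancel _ (by simp)⟩
  have B0 : constantCoeff B = 1 := by simpa using congrArg constantCoeff hB
  have u2 : ∀ n, (1 - 4 * X : ℚ⟦X⟧) ∈ S W2 n := fun n => by
    convert sub_mem (one_mem _) (add_mem (X2_mem n) (X2_mem n)) using 1; ring
  have v2 := div_mem u2 (by simp) (fun _ => one_mem _) hv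
  have s1 : (1 - 2 * X * c) ^ 2 = 1 - 4 * X := by linear_combination -4 * X * c2
  have b1 : B * B * (1 - 4 * X) = 1 := by
    linear_combination (B * (1 - 2 * X * c) + 1) * hB - B * B * s1
  have b2 : c + 2 * θ c = c * B := by
    linear_combination 2 * B * c3 - (c + 2 * θ c) * hB
  have b3 : (1 - 4 * X) * θ B = 2 * X * B := by
    have := congrArg θ b1
    simp only [θ_sub, θ_mul, θ_one, θn, θ_X] at this
    refine mul_left_cancel₀ two_ne ?_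
    linear_combination B * (1 - 4 * X) * this - (2 * (1 - 4 * X) * θ B - 4 * X * B) * b1
  have B2 : ∀ n, B ∈ S W2 n := by
    intro n
    induction n with
    | zero => exact fun _ hi => absurd hi (Nat.not_lt_zero _)
    | succ n ih =>
      rintro (_ | i) hi
      · simp [B0, W2, O.one_mem]
      · have := congrArg (coeff (i + 1))
          (show θ B = X * (C 4 * θ B + C 2 * B) by rw [← e2, ← e4]; linear_combination b3)
        rw [coeff_succ_X_mul, map_add, coeff_C_mul, coeff_C_mul, coeff_θ, coeff_θ] at this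
        convert O.mul_mem (natCast_mem O (2 * i + 1)) (ih i (by omega)) using 1
        simp only [W2, Nat.factorial_succ]
        push_cast at this ⊢
        field_simp
        linear_combination 2 ^ i * this
  obtain ⟨E, E2, hE⟩ := M_form hv (by linear_combination 2 * v * b3 - (2 * θ B + B) * hv) B0 v2 B2
  have m2 : ∀ n, (1 - 4 * X) * (G 1 1 1 * G 0 0 0) ∈ S W2 n := fun n => by
    rw [hE]
    refine mul_mem (u2 n) (add_mem (B2 n) ?_)
    convert mul_mem (mul_mem (add_mem (X2_mem n) (X2_mem n)) (X2_mem n)) (E2 n) using 1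
    ring
  obtain ⟨H, hH⟩ : ∃ H, H * ((1 - 4 * X) * (G 1 1 1 * G 0 0 0)) = 1 :=
    ⟨_, PowerSeries.inv_mul_cancel _ (by simp [G0])⟩
  have H2 := div_mem m2 (by simp [G0]) (fun _ => one_mem _) hH
  obtain ⟨E', E2', hE'⟩ : ∃ E', (∀ n, E' ∈ S W2 n) ∧ H = B + 8 * X ^ 2 * E' :=
    ⟨-(B * (1 - 4 * X) * E * H),
      fun n => neg_mem (mul_mem (mul_mem (mul_mem (B2 n) (u2 n)) (E2 n)) (H2 n)),
      by linear_combination B * hH - H * B * (1 - 4 * X) * hE - H * b1⟩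
  set ρ : ℚ⟦X⟧ := X ^ 2 * PowerSeries.mk fun n => 2 * coeff n E' / (n + 2) with hρ
  have r1 : θ ρ = 2 * X ^ 2 * E' := by
    ext n
    rw [coeff_θ, hρ, mul_assoc, e2, coeff_C_mul, coeff_X_pow_mul', coeff_X_pow_mul']
    split_ifs with h
    · obtain ⟨m, rfl⟩ := Nat.exists_eq_add_of_le' h
      simp only [Nat.add_sub_cancel, coeff_mk]
      push_cast
      field_simp
    · simp
  have r2 : ∀ n, ρ ∈ S W1 n := fun n => mul_mem (pow_mem (X_mem n) 2) fun i hi => by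
    convert O.mul_mem (O.mul_mem (E2' n i hi) (pow_fac (i + 1))) (natCast_mem O (i + 1)) using 1
    simp only [W1, W2, coeff_mk, Nat.factorial_succ]
    push_cast
    field_simp
    ring
  obtain ⟨R, hR⟩ : ∃ R, R * (c * G 0 0 0) = G 1 1 1 :=
    ⟨G 1 1 1 * (c * G 0 0 0)⁻¹, by
      rw [mul_assoc, PowerSeries.inv_mul_cancel _ (by simp [c0, G0]), mul_one]⟩
  have r3 := congrArg θ hR
  simp only [θ_mul] at r3
  have r4 : θ R = 2 * R * θ ρ := by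
    have w := wron
    have hne : (1 - 4 * X) * c * G 0 0 0 * G 0 0 0 ≠ 0 := fun h => by
      simpa [c0, G0] using congrArg constantCoeff h
    refine mul_left_cancel₀ (mul_ne_zero two_ne hne) ?_
    rw [r1]
    rw [← hR] at hH
    rw [← r3, ← hR] at w
    linear_combination w - hH - R * (1 - 4 * X) * G 0 0 0 * G 0 0 0 * b2 +
      R * c * (1 - 4 * X) * G 0 0 0 * G 0 0 0 * hE'
  exact ⟨R * c, fun n => mul_mem (exp_mem r2 (by simp [hρ]) r4
    (by simpa [c0, G0] using congrArg constantCoeff hR) n) (c1 n),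
    by simpa [c0, G0] using congrArg constantCoeff hR, by rw [mul_assoc, hR]⟩

theorem main (a b c d e f n : ℕ) :
    coeff n (G (1 + 2 * a) (1 + 2 * b) (1 + c) * (G (0 + 2 * d) (0 + 2 * e) (0 + f))⁻¹) ∈ O := by
  obtain ⟨U, u1, -, u3⟩ := ((steps 1 1 1 a b c).trans base).trans (steps 0 0 0 d e f).symm
  rw [u3, mul_assoc, PowerSeries.mul_inv_cancel _ (by rw [G0]; exact one_ne_zero), mul_one]
  simpa [W1] using u1 (n + 1) n (by omega)

end Pool.Agent.H.MP_18c163_nt
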